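import Pool.Agent.N561.EK.Stm
import Pool.Agent.N402.VE.Edge

/-!
# EK/17: the geometric meaning of the potential (helper34)

The sides of an edge: with `w = 1 / X`, `t2 = (1 - w) / (1 + 1 / G)` and `1 / t1 = 1 - (1 - w) / (1 + G)`,
and the imaginary part of `(1 - w) / (2 + g)` is positive if `‖1 - w‖ ‖g‖ < - 2 Im w`.  The relations between
the angles and the value are those of `Pool/Agent/N402/VE` (helper402).
-/

set_option autoImplicit false

namespace Pool.Agent.N34.EK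

open Pool.Agent.N402.VE
open Pool.Agent.W711.HT hiding XX
open Pool.Agent.W864.AR (t1 t2)
open Pool.Agent.TH609.Z (ex)
open Pool.Agent.N561
open Pool.Agent.N561.EK (POT THS DD D1 S_THS S_EFE EFE)
open scoped Real ComplexConjugate

theorem im_pos {w g : ℂ} (h : ‖1 - w‖ * ‖g‖ < -2 * w.im) : 0 < ((1 - w) / (2 + g)).im := by
  have h1 : |((1 - w) * conj g).im| ≤ ‖1 - w‖ * ‖g‖ := by
    refine (Complex.abs_im_le_norm _).trans (le_of_eq ?_)
    rw [norm_mul, Complex.norm_conj]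
  have h2 := abs_le.1 h1
  have h3 : ((1 - w) * conj g).im = -w.im * g.re - (1 - w.re) * g.im := by
    simp [Complex.mul_im]
    ring
  have hne : 2 + g ≠ 0 := by
    intro h0
    have hg : g = -2 := by linear_combination h0
    rw [hg, norm_neg] at h
    have h4 : |(1 - w).im| ≤ ‖1 - w‖ := Complex.abs_im_le_norm _
    have h5 : (1 - w).im = -w.im := by simp
    rw [h5, abs_neg] at h4
    have h6 := abs_le.1 h4
    norm_num at h
    linarith
  have hn : 0 < Complex.normSq (2 + g) := Complex.normSq_pos.2 hne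
  rw [Complex.div_im, ← sub_div]
  apply div_pos _ hn
  have e1 : (1 - w).im = -w.im := by simp
  have e2 : (1 - w).re = 1 - w.re := by simp
  have e3 : (2 + g).re = 2 + g.re := by simp
  have e4 : (2 + g).im = g.im := by simp
  rw [e1, e2, e3, e4]
  linarith [h2.1]

theorem exp_near {z : ℂ} (hz : ‖z‖ ≤ 21 / 50) : ‖Complex.exp z - 1‖ ≤ 3 / 5 := by
  have h1 := Complex.norm_exp_sub_one_sub_id_le (x := z) (by linarith)
  have h2 : ‖Complex.exp z - 1‖ ≤ ‖Complex.exp z - 1 - z‖ + ‖z‖ := by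
    have := norm_add_le (Complex.exp z - 1 - z) z
    rwa [sub_add_cancel] at this
  have h3 := norm_nonneg z
  nlinarith

theorem sw {ψ u : ℂ} (hψ : ‖ψ‖ ≤ 21 / 50) (h1 : 9 / 10 ≤ Real.sin u.re)
    (h2 : 3 / 5 ≤ Real.exp u.im) : SW ψ u := by
  obtain ⟨w, hw⟩ : ∃ w : ℂ, w = Complex.exp (-(Complex.I * u)) := ⟨_, rfl⟩
  have hX : ex u ≠ 0 := Complex.exp_ne_zero _
  have hG : ex ψ ≠ 0 := Complex.exp_ne_zero _
  have hwX : w = (ex u)⁻¹ := by rw [hw, ex, Complex.exp_neg]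
  have hwn : ‖w‖ = Real.exp u.im := by
    rw [hw, Complex.norm_exp]
    simp
  have hwi : w.im = -(Real.exp u.im * Real.sin u.re) := by
    rw [hw, Complex.exp_im]
    simp
  have hw1 : ‖1 - w‖ ≤ 1 + Real.exp u.im := by
    have := norm_sub_le (1 : ℂ) w
    rwa [norm_one, hwn] at this
  have key : ∀ g : ℂ, ‖g‖ ≤ 3 / 5 → 0 < ((1 - w) / (2 + g)).im := by
    intro g hg
    apply im_pos
    rw [hwi]
    have h3 : ‖1 - w‖ * ‖g‖ ≤ (1 + Real.exp u.im) * (3 / 5) := by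
      apply mul_le_mul hw1 hg (norm_nonneg _)
      have := Real.exp_pos u.im
      linarith
    have h4 : Real.exp u.im * (9 / 10) ≤ Real.exp u.im * Real.sin u.re :=
      mul_le_mul_of_nonneg_left h1 (Real.exp_pos _).le
    linarith
  have k1 := key (ex ψ - 1) (by
    rw [ex]
    apply exp_near
    rwa [norm_mul, Complex.norm_I, one_mul])
  have k2 := key ((ex ψ)⁻¹ - 1) (by
    rw [ex, ← Complex.exp_neg]
    apply exp_near
    rwa [norm_neg, norm_mul, Complex.norm_I, one_mul])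
  rw [show (2 : ℂ) + (ex ψ - 1) = 1 + ex ψ by ring] at k1
  rw [show (2 : ℂ) + ((ex ψ)⁻¹ - 1) = 1 + (ex ψ)⁻¹ by ring] at k2
  have hG1 : 1 + ex ψ ≠ 0 := by
    intro h0
    rw [h0, div_zero] at k1
    simp at k1
  constructor
  · obtain ⟨k, hk⟩ : ∃ k : ℂ, k = 1 - (1 - w) / (1 + ex ψ) := ⟨_, rfl⟩
    have hki : k.im < 0 := by
      rw [hk, Complex.sub_im, Complex.one_im]
      linarith
    have hk0 : k ≠ 0 := by
      intro h0
      rw [h0] at hki
      simp at hki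
    have hk' : k = (1 + ex u * ex ψ) / (ex u * (1 + ex ψ)) := by
      rw [hk, hwX]
      field_simp
      ring
    have ht : t1 (ex u) (ex ψ) = k⁻¹ := by
      rw [t1, hk', inv_div, add_comm (ex ψ) 1]
    rw [ht, Complex.inv_im]
    exact div_pos (by linarith) (Complex.normSq_pos.2 hk0)
  · have ht : t2 (ex u) (ex ψ) = (1 - w) / (1 + (ex ψ)⁻¹) := by
      have hG2 : 1 + (ex ψ)⁻¹ ≠ 0 := by
        intro h0
        rw [h0, div_zero] at k2
        simp at k2
      have hG3 : ex ψ + 1 ≠ 0 := by rwa [add_comm]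
      rw [t2, hwX, div_eq_div_iff (mul_ne_zero hX hG1) hG2]
      field_simp
      ring
    rw [ht]
    exact k2

theorem cos_re_pos {z : ℂ} (h : |z.re| < π / 2) : 0 < (Complex.cos z).re := by
  have e : (Complex.cos z).re = Real.cos z.re * Real.cosh z.im := by
    conv_lhs => rw [← Complex.re_add_im z]
    exact (cos_parts _ _).1
  rw [e]
  have h1 := abs_lt.1 h
  exact mul_pos (Real.cos_pos_of_mem_Ioo ⟨by linarith [h1.1], h1.2⟩) (Real.cosh_pos _)

theorem arg_bd {u ψ : ℂ} (h : |u.re| + |ψ.re| < π) :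
    |(Complex.cos ((u - ψ) / 2)).arg - (Complex.cos ((u + ψ) / 2)).arg| < π := by
  have h1 : |((u - ψ) / 2).re| < π / 2 := by
    rw [Pool.Agent.W583.HTP.half_re, Complex.sub_re, abs_div, abs_two]
    have := abs_sub u.re ψ.re
    linarith
  have h2 : |((u + ψ) / 2).re| < π / 2 := by
    rw [Pool.Agent.W583.HTP.half_re, Complex.add_re, abs_div, abs_two]
    have := abs_add_le u.re ψ.re
    linarith
  have a1 := abs_lt.1 (Complex.abs_arg_lt_pi_div_two_iff.2 (Or.inl (cos_re_pos h1)))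
  have a2 := abs_lt.1 (Complex.abs_arg_lt_pi_div_two_iff.2 (Or.inl (cos_re_pos h2)))
  rw [abs_lt]
  constructor <;> linarith [a1.1, a1.2, a2.1, a2.2]

theorem D1_sub {ψ : ℂ} (h : ψ ∈ D1) : ψ ∈ DD ∧ |ψ.re| ≤ 21 / 50 := by
  obtain ⟨h1, h2⟩ := h
  have h3 := (Complex.abs_re_le_norm ψ).trans h1
  exact ⟨⟨by linarith, by linarith⟩, h3⟩

theorem efe (hT : S_THS) : S_EFE := by
  intro hP ψ hψ φ hφ
  obtain ⟨mψ, rψ⟩ := D1_sub hψ
  obtain ⟨mφ, rφ⟩ := D1_sub hφ
  obtain ⟨s1, s2, s3⟩ := (hT hP).pos ψ mψ φ mφ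
  have hpi := Real.pi_gt_three
  have hpi2 := Real.pi_lt_d2
  have hu : 2 * (π : ℂ) * dst ψ φ = ((2 * π : ℝ) : ℂ) * dst ψ φ := by push_cast; ring
  have hure : (2 * (π : ℂ) * dst ψ φ).re = 2 * π * (dst ψ φ).re := by
    rw [hu, Complex.re_ofReal_mul]
  have huim : (2 * (π : ℂ) * dst ψ φ).im = 2 * π * (dst ψ φ).im := by
    rw [hu, Complex.im_ofReal_mul]
  have hs3 := abs_le.1 s3
  have hsin : 9 / 10 ≤ Real.sin (2 * (π : ℂ) * dst ψ φ).re := by
    rw [hure, ← Real.cos_pi_div_two_sub]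
    have h1 := Real.one_sub_sq_div_two_le_cos (x := π / 2 - 2 * π * (dst ψ φ).re)
    have h2 : |π / 2 - 2 * π * (dst ψ φ).re| ≤ 2 / 5 := by
      rw [abs_le]
      constructor <;> nlinarith
    have h3 : (π / 2 - 2 * π * (dst ψ φ).re) ^ 2 ≤ (2 / 5) ^ 2 := sq_le_sq' (by
      linarith [(abs_le.1 h2).1]) (abs_le.1 h2).2
    linarith
  have hexp : 3 / 5 ≤ Real.exp (2 * (π : ℂ) * dst ψ φ).im := by
    rw [huim]
    have h1 := Real.add_one_le_exp (2 * π * (dst ψ φ).im)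
    nlinarith [hs3.1]
  have hsd := sw hψ.1 hsin hexp
  have hsd' := sw hφ.1 hsin hexp
  have hub : 2 * π * (dst ψ φ).re ≤ 5 / 3 := by nlinarith
  have hu0 : 0 ≤ 2 * π * (dst ψ φ).re := by
    have : 0 ≤ (dst ψ φ).re := by linarith
    positivity
  have huabs : |(2 * (π : ℂ) * dst ψ φ).re| ≤ 5 / 3 := by
    rw [hure, abs_of_nonneg hu0]
    exact hub
  have k5 := arg_bd (u := 2 * (π : ℂ) * dst ψ φ) (ψ := ψ) (by linarith)
  have k6 := arg_bd (u := 2 * (π : ℂ) * dst ψ φ) (ψ := φ) (by linarith)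
  have hE : HE ψ φ (2 * π * dst ψ φ) :=
    ⟨hsd, hsd', hP.den ψ mψ φ mφ, hP.dcos ψ mψ φ mφ, by linarith, by linarith⟩
  obtain ⟨p1, p2⟩ := mem_Om_psi (δ := dst ψ φ) (ψ := ψ) (by linarith) (by linarith)
  obtain ⟨p3, p4⟩ := mem_Om_psi (δ := dst ψ φ) (ψ := φ) (by linarith) (by linarith)
  refine ⟨hw hE, (hP.d1 ψ mψ φ mφ).deriv, (hP.d2 ψ mψ φ mφ).deriv, ?_⟩
  unfold sg
  exact value p1 p2 p3 p4 (by linarith) (by linarith) (hP.dcr ψ mψ φ mφ) (Lg_im hE.sd k5)
    (Lg_im hE.sd' k6)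

end Pool.Agent.N34.EK
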